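import Pool.Agent.Lib.H40G.A9

/-!
# Genericity of compactly induced representations of covering groups

Problem MP_eb52a2_al, Q1.  Let `p` be the residue characteristic and `Z` the kernel of the cover.

* If `p` does not divide `|Z|` the answer is YES for all groups, all `K`, `s`, `ρ`: the
  representations `Π̃` and `Π` have isomorphic restrictions to every unipotent subgroup `N` (lifted by
  its unique splitting).  Proof: the two splittings, over `N` and over `g K g⁻¹`, agree on
  `N ∩ g K g⁻¹`, because `n ^ (p ^ k) → 1` for every unipotent `n` and `|Z|` is prime to `p`; so there is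
  a function `c` on the cover with values in `Z` with `c (z s(k) e t(n)) = z c(e)`, and
  `f ↦ ε(c(e)) f(π e)` is an isomorphism of `N`-representations.
* If `p` divides `|Z|` the answer is NO, and both implications fail: for `G = Sp_4(ℚ_3)` the
  equivalence holds for all covers of degree `m` if and only if `3` does not divide `m`, and it fails
  for every cover of degree divisible by `3` which splits over the group `K = {±1} P⁺`
  (`Pool/Agent/Lib/Helper67`: `P⁺` is the pro-unipotent radical of the Siegel parahoric; cubic characters
  of `P⁺` given by pairs of binary quadratic forms over `𝔽_3`).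
-/

set_option autoImplicit false

namespace Pool.Agent.Results.MP_eb52a2_al.DegreeDichotomy

open Pool.Agent.Lib.Helper67 Pool.Agent.Lib.H40G

/-- **Answer to Q1.**

(1) `CoprimeDegree`: let `F` be a non-archimedean normed field of residue characteristic `p`, `G` a
topological group with a topological embedding into `GL_m(F)`, `C` a finite cover of `G` with kernel `Z`
of order prime to `p`, `D` an open subgroup `K` with a splitting `s` and a representation `ρ`,
`Π = ind ρ`, `Π̃ = ind ρ̃`.  Let `N` be a subgroup of `G` which consists of unipotent matrices.  Then `N`
has at most one splitting `t`, the restriction of `Π̃` to `N` (by `t`) is isomorphic to the restriction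
of `Π`, and `t` exists if some `a ∈ G` contracts `N` (`a ^ k n a ^ (-k) → 1`), as is the case for the
unipotent radicals of Borel subgroups.  Hence, for every set `𝒲` of pairs `(N, ψ)` with such subgroups
`N` and characters `ψ` (in the question: all unipotent radicals `N` of Borel subgroups and all
non-degenerate `ψ`), `Π̃` is generic if and only if `Π` is.

(2) For `G = Sp_4(ℚ_3)` and `m ≥ 1`: the equivalence of the question holds for all instances over all
covers of degree `m` if and only if `3 ∤ m`.

(3) For the cover `Sp_4(ℚ_3) × μ₃` both implications fail, with `Π̃` irreducible supercuspidal too.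

(4) The equivalence fails for some instance over every cover of `Sp_4(ℚ_3)` of degree divisible by `3`
which splits over `K = {±1} P⁺` (for example the fibre product of `Sp_4(ℚ_3) × μ₃` and the metaplectic
double cover, which splits over `Sp_4(ℤ_3)`). -/
theorem result :
    CoprimeDegree ∧
    (∀ m : ℕ, m ≠ 0 →
      ((∀ C : Cov, Nat.card C.p.ker = m → ∀ I : Inst C, (I.GenericTilde ↔ I.Generic)) ↔ ¬ 3 ∣ m)) ∧
    (∃ I J : Inst trivCov,
      (I.SupercuspidalTilde ∧ ¬ I.Generic ∧ I.GenericTilde) ∧
      (J.SupercuspidalTilde ∧ J.Generic ∧ ¬ J.GenericTilde)) ∧
    ∀ C : Cov, 3 ∣ Nat.card C.p.ker → (∃ s, IsSplitting C.p KK s) →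
      ∃ I : Inst C, I.K = KK ∧ ¬ (I.GenericTilde ↔ I.Generic) :=
  ⟨a9_main, a8_main, partA, partB⟩

end Pool.Agent.Results.MP_eb52a2_al.DegreeDichotomy
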